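import Pool.Agent.K.MP_0d6be8_lc.C0

open Pool.Agent.P.MP_0d6be8_lc MeasureTheory

theorem Pool.Agent.Results.MP_0d6be8_lc.CHCase.result
    (hCH : Cardinal.continuum.{0} = Cardinal.aleph 1) :
    ∃ (A : Type) (_ : BooleanAlgebra A), Infinite A ∧ MinimallyGenerated A ∧ Nikodym A ∧
      ∀ μ : Measure (Stone A), IsFiniteMeasure μ → μ.InnerRegular → IsSeparable μ :=
  Pool.Agent.P.MP_0d6be8_lc.main hCH
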