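import Pool.Agent.K.MP_0d6be8_lc.C1

open Pool.Agent.P.MP_0d6be8_lc

theorem Pool.Agent.Results.MP_0d6be8_lc.MinGenSmallH.result
    (A : Type) [BooleanAlgebra A] [Infinite A] (hA : MinimallyGenerated A) (hN : Nikodym A) :
    ∃ 𝒟 : Set (Set (Set ℕ)), Cardinal.mk 𝒟 ≤ Cardinal.aleph 1 ∧ (∀ D ∈ 𝒟, DenseOpen D) ∧
      ⋂₀ 𝒟 = ∅ := by
  by_contra h
  exact not_hBig hA hN fun 𝒟 h1 h2 => Set.nonempty_iff_ne_empty.2 fun h3 => h ⟨𝒟, h1, h2, h3⟩
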