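import Pool.Agent.K.MP_0d6be8_lc.C9
import Pool.Agent.P.MP_0d6be8_lc.Std.H
import Pool.Agent.P.MP_0d6be8_lc.Std.L
import Pool.Agent.P.MP_0d6be8_lc.Std.M

set_option autoImplicit false

open Pool.Agent.Lib.PosetForcing Pool.Agent.P.MP_93aff1_lc Pool.Agent.P.MP_0d6be8_lc

namespace Pool.Agent.Results.MP_0d6be8_lc.ModelOfMA

theorem result :
    ∃ (M : Type) (mem : M → M → Prop), IsZFC mem ∧
      ∃ w C : M, IsOmega mem w ∧ IsPow mem C w ∧ MA mem w C ∧ NK.Goal mem w :=
  NKW.final

/-! Controls of the definitions. They are not part of the result. -/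

/-- the model can be taken so that its power set of omega meets all hypotheses of the goal -/
theorem model_control :
    ∃ (M : Type) (mem : M → M → Prop), IsZFC mem ∧
      ∃ w C : M, IsOmega mem w ∧ IsPow mem C w ∧ MA mem w C ∧ NK.Goal mem w ∧
        ∃ R add mul rle o le X S, NK.IsReals mem R add mul rle o ∧
          (∀ a b, mem a C → mem b C → (App mem le a b ↔ IsSub mem a b)) ∧
          NK.IsBoolean mem C le ∧ LeCard mem w C ∧ NK.Nikodym mem w R add rle o C le ∧
          NK.IsStone mem C le X ∧ NK.IsBorel mem w X S :=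
  NKW.Ctl.model_control

/-! The same definitions read in a full universe, where the sets are exactly the ranges of the
families indexed by types. -/

/-- a full universe -/
def Full (M : Type 1) (mem : M → M → Prop) : Prop :=
  IsZFC mem ∧ (∀ (T : Type) (f : T → M), ∃ a, ∀ x, mem x a ↔ ∃ t, f t = x) ∧
    ∀ a, ∃ (T : Type) (f : T → M), ∀ x, mem x a ↔ ∃ t, f t = x

/-- there is a full universe -/
theorem full_exists : ∃ (M : Type 1) (mem : M → M → Prop), Full M mem ∧
    ∃ w C, IsOmega mem w ∧ IsPow mem C w :=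
  ⟨_, _, ⟨Std.zfUni.zfc, Std.zfUni.rng, Std.zfUni.small⟩, @Std.omega_pow Std.zfUni⟩

variable {M : Type 1} {mem : M → M → Prop} {w C R add mul rle o A le X S m : M}

/-- there is a field of reals -/
theorem reals_exist (h : Full M mem) : ∃ R add mul rle o, NK.IsReals mem R add mul rle o :=
  @Std.exists_reals ⟨M, mem, h.1, h.2.1, h.2.2⟩

/-- every field of reals is the real line -/
theorem reals_reading (h : Full M mem) (hR : NK.IsReals mem R add mul rle o) : ∃ ρ : ℝ → M,
    (∀ x y, ρ x = ρ y → x = y) ∧ (∀ z, mem z R ↔ ∃ x, ρ x = z) ∧ ρ 0 = o ∧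
    (∀ x y z, NK.App2 mem add (ρ x) (ρ y) z ↔ ρ (x + y) = z) ∧
    (∀ x y z, NK.App2 mem mul (ρ x) (ρ y) z ↔ ρ (x * y) = z) ∧
    ∀ x y, App mem rle (ρ x) (ρ y) ↔ x ≤ y :=
  @Std.reals_std ⟨M, mem, h.1, h.2.1, h.2.2⟩ _ _ _ _ _ hR

/-- the power set of omega meets all hypotheses of the goal -/
theorem power_set_control (h : Full M mem) (hw : IsOmega mem w) (hC : IsPow mem C w)
    (hR : NK.IsReals mem R add mul rle o) :
    ∃ le X S, (∀ a b, mem a C → mem b C → (App mem le a b ↔ IsSub mem a b)) ∧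
      NK.IsBoolean mem C le ∧ LeCard mem w C ∧ NK.Nikodym mem w R add rle o C le ∧
      NK.IsStone mem C le X ∧ NK.IsBorel mem w X S :=
  @Std.pow_nik ⟨M, mem, h.1, h.2.1, h.2.2⟩ _ _ _ _ _ _ _ hw hC hR

/-- a countably infinite algebra does not have the property -/
theorem countable_algebra_control (h : Full M mem) (hw : IsOmega mem w)
    (hR : NK.IsReals mem R add mul rle o) (hA : NK.IsBoolean mem A le) (h1 : LeCard mem w A)
    (h2 : LeCard mem A w) : ¬ NK.Nikodym mem w R add rle o A le :=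
  @Std.ctb_not_nik ⟨M, mem, h.1, h.2.1, h.2.2⟩ _ _ _ _ _ _ _ _ hw hR hA h1 h2

/-- over a countable algebra every measure has countable type -/
theorem countable_type_control (h : Full M mem) (hw : IsOmega mem w)
    (hR : NK.IsReals mem R add mul rle o) (hA : NK.IsBoolean mem A le) (h2 : LeCard mem A w)
    (hX : NK.IsStone mem A le X) (hS : NK.IsBorel mem w X S)
    (hm : NK.IsRadon mem w R add rle o X S m) : NK.CountableType mem w R rle o S m :=
  @Std.ctb_type ⟨M, mem, h.1, h.2.1, h.2.2⟩ _ _ _ _ _ _ _ _ _ _ _ hw hR hA h2 hX hS hm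

/-- under the continuum hypothesis MA holds and the goal fails -/
theorem continuum_control (h : Full M mem) (hw : IsOmega mem w) (hC : IsPow mem C w)
    (hch : ∀ S, IsSub mem S C → LeCard mem S w ∨ LeCard mem C S) :
    MA mem w C ∧ ¬ NK.Goal mem w :=
  @Std.ch_control ⟨M, mem, h.1, h.2.1, h.2.2⟩ _ _ hw hC hch

/-- MA, read in a full universe -/
theorem martin_reading (h : Full M mem) (hw : IsOmega mem w) (hC : IsPow mem C w) : MA mem w C ↔
    ∀ (P : Type) (l : P → P → Prop), (∃ _ : P, True) → (∀ x, l x x) →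
      (∀ x y z, l x y → l y z → l x z) →
      (∀ A : P → Prop, (∀ x y, A x → A y → x ≠ y → ¬ ∃ z, l z x ∧ l z y) →
        ∃ f : P → ℕ, ∀ x y, A x → A y → f x = f y → x = y) →
      ∀ F : (P → Prop) → Prop, (∀ D, F D → ∀ x, ∃ y, D y ∧ l y x) →
        (¬ ∃ g : (ℕ → Prop) → P → Prop, (∀ s, F (g s)) ∧ ∀ s t, g s = g t → s = t) →
        ∃ G : P → Prop, (∃ x, G x) ∧ (∀ x y, G x → l x y → G y) ∧
          (∀ x y, G x → G y → ∃ z, G z ∧ l z x ∧ l z y) ∧ ∀ D, F D → ∃ x, G x ∧ D x :=
  @Std.ma_iff ⟨M, mem, h.1, h.2.1, h.2.2⟩ _ _ hw hC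

open MeasureTheory in
/-- the goal, read in a full universe -/
theorem goal_reading (h : Full M mem) (hw : IsOmega mem w) : NK.Goal mem w ↔
    ∀ (B : Type) [BooleanAlgebra B], (∃ f : ℕ → B, ∀ i j, f i = f j → i = j) →
      (∀ μ : ℕ → B → ℝ, (∀ n a b, a ⊓ b = ⊥ → μ n (a ⊔ b) = μ n a + μ n b) →
        (∀ n, ∃ c, ∀ s : Finset B, (∀ a ∈ s, ∀ b ∈ s, a ≠ b → a ⊓ b = ⊥) →
          ∑ a ∈ s, |μ n a| ≤ c) →
        (∀ a, ∃ c, ∀ n, |μ n a| ≤ c) →
        ∃ c, ∀ n, ∀ s : Finset B, (∀ a ∈ s, ∀ b ∈ s, a ≠ b → a ⊓ b = ⊥) →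
          ∑ a ∈ s, |μ n a| ≤ c) →
      ∃ μ : Measure (Stone B), IsFiniteMeasure μ ∧ μ.InnerRegular ∧ ¬ IsSeparable μ :=
  @Std.goal_plain ⟨M, mem, h.1, h.2.1, h.2.2⟩ _ hw

/-! The question in terms of proofs: a Hilbert calculus `Prov` (sound and complete: `prov_iff`), the
axioms `ZFC` (`models_zfc`), and `literal`: the implication is expressible and ZFC does not prove
it. -/

open Pool.Agent.P.MP_95b5c3_gt

/-- the variable `n` is free in the formula -/
def Free (n : ℕ) : Fml → Prop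
  | .mem i j => n = i ∨ n = j
  | .eq i j => n = i ∨ n = j
  | .neg φ => Free n φ
  | .and φ ψ => Free n φ ∨ Free n ψ
  | .all i φ => ¬ n = i ∧ Free n φ

/-- the largest value of `σ` at a free variable of the formula -/
def top : Fml → (ℕ → ℕ) → ℕ
  | .mem i j, σ => if σ i ≤ σ j then σ j else σ i
  | .eq i j, σ => if σ i ≤ σ j then σ j else σ i
  | .neg φ, σ => top φ σ
  | .and φ ψ, σ => if top φ σ ≤ top ψ σ then top ψ σ else top φ σ
  | .all i φ, σ => top φ (Function.update σ i 0)

/-- simultaneous substitution of the variable `σ i` for each free variable `i`; bound variables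
are renamed to fresh ones, so nothing is captured -/
def sb : Fml → (ℕ → ℕ) → Fml
  | .mem i j, σ => .mem (σ i) (σ j)
  | .eq i j, σ => .eq (σ i) (σ j)
  | .neg φ, σ => .neg (sb φ σ)
  | .and φ ψ, σ => .and (sb φ σ) (sb ψ σ)
  | .all i φ, σ => .all (top (.all i φ) σ + 1)
      (sb φ (Function.update σ i (top (.all i φ) σ + 1)))

/-- implication -/
def imp (φ ψ : Fml) : Fml := .neg (.and φ (.neg ψ))

/-- the truth value of a formula when atomic and quantified formulas get their values from `e` -/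
def Ev (e : Fml → Prop) : Fml → Prop
  | .neg φ => ¬ Ev e φ
  | .and φ ψ => Ev e φ ∧ Ev e ψ
  | φ => e φ

/-- provability from the axioms `T` (read as universally closed) in a Hilbert calculus for
first-order logic with equality -/
inductive Prov (T : Fml → Prop) : Fml → Prop
  | ax {φ : Fml} : T φ → Prov T φ
  | taut {φ : Fml} : (∀ e, Ev e φ) → Prov T φ
  | mp {φ ψ : Fml} : Prov T (imp φ ψ) → Prov T φ → Prov T ψ
  | subst {φ : Fml} (σ : ℕ → ℕ) : Prov T φ → Prov T (sb φ σ)
  | inst (i j : ℕ) (φ : Fml) :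
      Prov T (imp (.all i φ) (sb φ (Function.update (fun n => n) i j)))
  | gen {i j : ℕ} {φ ψ : Fml} : ¬ Free j ψ → ¬ Free j (.all i φ) →
      Prov T (imp ψ (sb φ (Function.update (fun n => n) i j))) → Prov T (imp ψ (.all i φ))
  | refl (i : ℕ) : Prov T (.eq i i)
  | eqm (i j k l : ℕ) : Prov T (imp (.eq i j) (imp (.eq k l) (imp (.mem i k) (.mem j l))))
  | eqe (i j k l : ℕ) : Prov T (imp (.eq i j) (imp (.eq k l) (imp (.eq i k) (.eq j l))))

/-- `T` is consistent: it proves no formula together with its negation -/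
def Con (T : Fml → Prop) : Prop := ¬ ∃ φ, Prov T φ ∧ Prov T (.neg φ)

/-- disjunction -/
def orF (φ ψ : Fml) : Fml := .neg (.and (.neg φ) (.neg ψ))

/-- equivalence -/
def iffF (φ ψ : Fml) : Fml := .and (imp φ ψ) (imp ψ φ)

/-- existential quantifier -/
def exF (i : ℕ) (φ : Fml) : Fml := .neg (.all i (.neg φ))

/-- the axioms of ZFC (free variables are read universally) -/
inductive ZFC : Fml → Prop
  | ext : ZFC (imp (.all 2 (iffF (.mem 2 0) (.mem 2 1))) (.eq 0 1))
  | found : ZFC (imp (exF 1 (.mem 1 0))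
      (exF 1 (.and (.mem 1 0) (.all 2 (imp (.mem 2 1) (.neg (.mem 2 0)))))))
  | pair : ZFC (exF 2 (.all 3 (iffF (.mem 3 2) (orF (.eq 3 0) (.eq 3 1)))))
  | union : ZFC (exF 1 (.all 2 (iffF (.mem 2 1) (exF 3 (.and (.mem 3 0) (.mem 2 3))))))
  | power : ZFC (exF 1 (.all 2 (iffF (.mem 2 1) (.all 3 (imp (.mem 3 2) (.mem 3 0))))))
  | inf : ZFC (exF 0 (.and (exF 1 (.and (.mem 1 0) (.all 2 (.neg (.mem 2 1)))))
      (.all 1 (imp (.mem 1 0) (exF 2 (.and (.mem 2 0)
        (.all 3 (iffF (.mem 3 2) (orF (.mem 3 1) (.eq 3 1))))))))))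
  | sep (φ : Fml) (a b : ℕ) : ¬ a = 0 → ¬ b = 0 → ¬ b = a → ¬ Free b φ →
      ZFC (exF b (.all 0 (iffF (.mem 0 b) (.and (.mem 0 a) φ))))
  | repl (φ : Fml) (a b : ℕ) : 1 < a → 1 < b → ¬ b = a → ¬ Free b φ →
      ZFC (imp (.all 0 (imp (.mem 0 a) (exF b (.all 1 (iffF φ (.eq 1 b))))))
        (exF b (.all 1 (iffF (.mem 1 b) (exF 0 (.and (.mem 0 a) φ))))))
  | choice : ZFC (imp (.all 1 (imp (.mem 1 0) (exF 2 (.mem 2 1))))
      (imp (.all 1 (.all 2 (.all 3 (imp (.mem 1 0) (imp (.mem 2 0) (imp (.mem 3 1)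
        (imp (.mem 3 2) (.eq 1 2))))))))
      (exF 1 (.all 2 (imp (.mem 2 0) (exF 3 (.all 4
        (iffF (.and (.mem 4 2) (.mem 4 1)) (.eq 4 3)))))))))

/-- in models of ZFC the formula `φ` says: if MA holds, there is an infinite Boolean algebra with the
Nikodym property whose Stone space carries only measures of countable Maharam type -/
def Says (φ : Fml) : Prop :=
  ∀ (M : Type) (mem : M → M → Prop), IsZFC mem → ∀ v, Sat mem φ v ↔ ∀ w C : M,
    IsOmega mem w → IsPow mem C w → MA mem w C →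
      ∃ R add mul rle o A le X S, NK.IsReals mem R add mul rle o ∧ NK.IsBoolean mem A le ∧
        LeCard mem w A ∧ NK.Nikodym mem w R add rle o A le ∧ NK.IsStone mem A le X ∧
        NK.IsBorel mem w X S ∧
        ∀ m, NK.IsRadon mem w R add rle o X S m → NK.CountableType mem w R rle o S m

theorem free_iff (n : ℕ) (φ : Fml) : Free n φ ↔ n ∈ Lit.fv φ := by
  induction φ <;> simp [Free, Lit.fv, *]

theorem top_eq (φ : Fml) : ∀ σ, top φ σ = (Lit.fv φ).sup σ := by
  induction φ with
  | mem i j => intro σ; simp [top, Lit.fv, max_def]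
  | eq i j => intro σ; simp [top, Lit.fv, max_def]
  | neg φ ih => exact ih
  | and φ ψ ih ih' => intro σ; simp [top, Lit.fv, Finset.sup_union, max_def, ih, ih']
  | all i φ ih => exact fun σ => (ih _).trans (Lit.sup_update _ σ i)

theorem sb_eq (φ : Fml) : ∀ σ, sb φ σ = Lit.sb φ σ := by
  induction φ <;> intro σ <;> simp only [sb, Lit.sb, top_eq, Lit.fv, *]

theorem ev_eq (e : Fml → Prop) (φ : Fml) : Ev e φ ↔ Lit.Ev e φ := by
  induction φ <;> simp only [Ev, Lit.Ev, *]

theorem prov_eq (T : Fml → Prop) (φ : Fml) : Prov T φ ↔ Lit.Prov {χ | T χ} φ := by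
  constructor <;> intro h
  · induction h with
    | ax h => exact .ax h
    | taut h => exact .taut fun e => (ev_eq e _).1 (h e)
    | mp _ _ a b => exact .mp a b
    | subst σ _ a => exact sb_eq _ σ ▸ .subst σ a
    | inst i j φ => exact sb_eq φ _ ▸ .inst i j φ
    | gen a b _ c =>
      exact .gen (mt (free_iff _ _).2 a) (mt (free_iff _ _).2 b) (sb_eq _ _ ▸ c)
    | refl i => exact .refl i
    | eqm i j k l => exact .eqm i j k l
    | eqe i j k l => exact .eqe i j k l
  · induction h with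
    | ax h => exact .ax h
    | taut h => exact .taut fun e => (ev_eq e _).2 (h e)
    | mp _ _ a b => exact .mp a b
    | subst σ _ a => exact sb_eq _ σ ▸ .subst σ a
    | inst i j φ => exact sb_eq φ _ ▸ .inst i j φ
    | gen a b _ c =>
      exact .gen (mt (free_iff _ _).1 a) (mt (free_iff _ _).1 b) ((sb_eq _ _).symm ▸ c)
    | refl i => exact .refl i
    | eqm i j k l => exact .eqm i j k l
    | eqe i j k l => exact .eqe i j k l

theorem zfc_eq : ZFC = Lit.ZFC := by
  refine funext fun φ => propext ⟨fun h => ?_, fun h => ?_⟩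
  · cases h with
    | sep φ a b p q r s => exact .sep φ a b p q r (mt (free_iff _ _).2 s)
    | repl φ a b p q r s => exact .repl φ a b p q r (mt (free_iff _ _).2 s)
    | _ => constructor
  · cases h with
    | sep φ a b p q r s => exact .sep φ a b p q r (mt (free_iff _ _).1 s)
    | repl φ a b p q r s => exact .repl φ a b p q r (mt (free_iff _ _).1 s)
    | _ => constructor

/-- soundness and completeness of the calculus: provable means true in every model -/
theorem prov_iff (T : Fml → Prop) (φ : Fml) :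
    Prov T φ ↔ ∀ (M : Type) (mem : M → M → Prop), (∀ χ, T χ → ∀ v, Sat mem χ v) →
      ∀ v, Sat mem φ v :=
  (prov_eq T φ).trans (Lit.prov_iff _ φ)

/-- the models of the axioms are the models of ZFC in the sense of `result` -/
theorem models_zfc (M : Type) (mem : M → M → Prop) (x : M) :
    (∀ χ, ZFC χ → ∀ v, Sat mem χ v) ↔ IsZFC mem :=
  have : Nonempty M := ⟨x⟩
  zfc_eq ▸ Lit.models_zfc

/-- The question in its own words: the implication is expressible, ZFC does not prove it, and ZFC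
together with its negation is consistent. -/
theorem literal : (∃ φ, Says φ) ∧
    ∀ φ, Says φ → ¬ Prov ZFC φ ∧ Con fun χ => χ = .neg φ ∨ ZFC χ := by
  obtain ⟨M, mem, h, w, C, h1, h2, h3, h4⟩ := result
  simp only [Con, prov_eq, zfc_eq]
  exact Lit.literal h h1 h2 h3 h4

end Pool.Agent.Results.MP_0d6be8_lc.ModelOfMA
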